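import Pool.Agent.Helper70_rk2.GenA

/-!
# Alphabets, words and generated classes
-/

open CategoryTheory AlgebraicGeometry

universe u v

namespace Pool.Agent.Helper70Rk

set_option linter.unusedSectionVars false
set_option linter.unusedVariables false

open Pool.Agent.H914 Pool.Agent.H914.VarClass Pool.Agent.H914.VarClass.Obj
  Pool.Agent.H914.WeilCohomology Pool.Agent.R908

variable {k : Type u} [Field k] {𝒱 : VarClass k} {ops : CycleOps 𝒱}
  {W : WeilCohomology.{u, v} ops} {X Y Z Z' : 𝒱.Obj} {ι : Type}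

/-- The value of a word. -/
def wv (L : List (W.H Z × ι)) : W.H Z := (L.map Prod.fst).prod

lemma wv_nil : wv ([] : List (W.H Z × ι)) = 1 := rfl

lemma wv_cons (b : W.H Z × ι) (L : List (W.H Z × ι)) : wv (b :: L) = b.1 * wv L := by
  rw [wv, List.map_cons, List.prod_cons]
  rfl

lemma wv_append (L L' : List (W.H Z × ι)) : wv (L ++ L') = wv L * wv L' := by
  rw [wv, List.map_append, List.prod_append]
  rfl

/-- The pull-back of a word. -/
def pw' (g : Z ⟶ Z') (L : List (W.H Z' × ι)) : List (W.H Z × ι) := L.map fun b => (W.map g b.1, b.2)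

lemma map_wv (g : Z ⟶ Z') (L : List (W.H Z' × ι)) : W.map g (wv L) = wv (pw' g L) := by
  rw [wv, wv, pw', map_list_prod, List.map_map, List.map_map]
  rfl

/-- Homogeneous letters: for each letter, the set of its pull-backs to the varieties `Z`. -/
structure Alph (W : WeilCohomology.{u, v} ops) (ι : Type) where
  /-- the pull-backs of the letters -/
  mem : ι → ∀ Z : 𝒱.Obj, Set (W.H Z)
  hom : ∀ {l : ι} {Z : 𝒱.Obj} {x : W.H Z}, x ∈ mem l Z → Hom x
  map : ∀ {l : ι} {Z Z' : 𝒱.Obj} (g : Z ⟶ Z') {x : W.H Z'}, x ∈ mem l Z' → W.map g x ∈ mem l Z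

namespace Alph

variable (A : Alph W ι) {s t : Multiset ι}

/-- The list `L` is a word of type `s` on `Z`. -/
def IsW (Z : 𝒱.Obj) (L : List (W.H Z × ι)) (s : Multiset ι) : Prop :=
  (∀ b ∈ L, b.1 ∈ A.mem b.2 Z) ∧ ((L.map Prod.snd : List ι) : Multiset ι) = s

variable {A}

lemma IsW.hom {L : List (W.H Z × ι)} (h : A.IsW Z L s) : Hom (wv L) := by
  obtain ⟨h, -⟩ := h
  induction L with
  | nil => exact Hom.one
  | cons b L ih =>
    rw [wv_cons]
    exact (A.hom (h b (List.mem_cons_self ..))).mul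
      (ih fun b hb => h b (List.mem_cons_of_mem _ hb))

lemma IsW.append {L L' : List (W.H Z × ι)} (h : A.IsW Z L s) (h' : A.IsW Z L' t) :
    A.IsW Z (L ++ L') (s + t) := by
  refine ⟨fun b hb => ?_, ?_⟩
  · rcases List.mem_append.1 hb with hb | hb
    · exact h.1 b hb
    · exact h'.1 b hb
  · rw [List.map_append, ← Multiset.coe_add, h.2, h'.2]

lemma IsW.map {L : List (W.H Z' × ι)} (h : A.IsW Z' L s) (g : Z ⟶ Z') :
    A.IsW Z (pw' g L) s := by
  refine ⟨fun b hb => ?_, ?_⟩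
  · obtain ⟨c, hc, rfl⟩ := List.mem_map.1 hb
    exact A.map g (h.1 c hc)
  · rw [pw', List.map_map, ← h.2]
    rfl

lemma IsW.nil : A.IsW Z [] 0 := ⟨fun b hb => absurd hb List.not_mem_nil, rfl⟩

lemma IsW.eq_nil {L : List (W.H Z × ι)} (h : A.IsW Z L 0) : L = [] := by
  rcases L with _ | ⟨b, L⟩
  · rfl
  · exact absurd (congrArg Multiset.card h.2) (by simp)

lemma IsW.pair {l m : ι} {x y : W.H Z} (hx : x ∈ A.mem l Z) (hy : y ∈ A.mem m Z) :
    A.IsW Z [(x, l), (y, m)] {l, m} := by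
  refine ⟨fun b hb => ?_, rfl⟩
  rcases List.mem_cons.1 hb with rfl | hb
  · exact hx
  · rcases List.mem_cons.1 hb with rfl | hb
    · exact hy
    · exact absurd hb List.not_mem_nil

lemma IsW.single {L : List (W.H Z × ι)} {m : ι} (h : A.IsW Z L {m}) :
    ∃ x ∈ A.mem m Z, L = [(x, m)] := by
  have h1 : L.map Prod.snd = [m] := List.perm_singleton.1 (Multiset.coe_eq_coe.1 h.2)
  obtain ⟨⟨x, a⟩, T', rfl, ha, h2⟩ := List.map_eq_cons_iff.1 h1
  rw [List.map_eq_nil_iff] at h2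
  subst h2
  have ha' : a = m := ha
  subst ha'
  exact ⟨x, h.1 (x, a) (List.mem_cons_self ..), rfl⟩

/-- Splitting a word. -/
lemma IsW.split {L : List (W.H Z × ι)} (hL : A.IsW Z L (s + t)) :
    ∃ (L₁ L₂ : List (W.H Z × ι)) (ε : W.K), ε ≠ 0 ∧ A.IsW Z L₁ s ∧ A.IsW Z L₂ t ∧
      wv L = ε • (wv L₁ * wv L₂) := by
  induction s using Quotient.inductionOn with | _ ls =>
  induction t using Quotient.inductionOn with | _ lt =>
  have hL' : (L.map Prod.snd).Perm (ls ++ lt) := Multiset.coe_eq_coe.1 hL.2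
  obtain ⟨L₁, hL₁, h1⟩ := exists_perm_of_map hL'
  obtain ⟨L₂, L₃, rfl, h2, h3⟩ := List.map_eq_append_iff.1 h1
  obtain ⟨ε, hε, h4⟩ := word_perm' (hL₁.map Prod.fst) (by
    intro y hy
    obtain ⟨b, hb, rfl⟩ := List.mem_map.1 hy
    exact A.hom (hL.1 b hb))
  refine ⟨L₂, L₃, ε, hε, ⟨fun b hb => ?_, by rw [h2]; rfl⟩, ⟨fun b hb => ?_, by rw [h3]; rfl⟩, ?_⟩
  · exact hL.1 b (hL₁.mem_iff.2 (List.mem_append_left _ hb))
  · exact hL.1 b (hL₁.mem_iff.2 (List.mem_append_right _ hb))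
  · rw [wv, h4, List.map_append, List.prod_append]
    rfl

variable (A)

/-- The words of type `s` are algebraic. -/
def UAl (s : Multiset ι) : Prop := ∀ (Z : 𝒱.Obj) (L : List (W.H Z × ι)), A.IsW Z L s →
  wv L ∈ Alg W Z

variable {A}

lemma UAl.zero : A.UAl 0 := by
  intro Z L hL
  rw [hL.eq_nil, wv_nil]
  exact Alg.one

lemma UAl.add (hs : A.UAl s) (ht : A.UAl t) : A.UAl (s + t) := by
  intro Z L hL
  obtain ⟨L₁, L₂, ε, hε, h1, h2, h3⟩ := hL.split
  rw [h3]
  exact Submodule.smul_mem _ _ (Alg.mul (hs Z L₁ h1) (ht Z L₂ h2))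

/-- The semilinear automorphism `S` permutes the letters by `π`. -/
def IsGal (A : Alph W ι) (S : SemiLin W) (π : Equiv.Perm ι) : Prop :=
  ∀ (l : ι) (Z : 𝒱.Obj) (x : W.H Z), x ∈ A.mem (π l) Z →
    ∃ y ∈ A.mem l Z, ∃ r : W.K, r ≠ 0 ∧ S.σ Z y = r • x

/-- The conjugate words. -/
lemma IsGal.word {S : SemiLin W} {π : Equiv.Perm ι} (h : A.IsGal S π) {L : List (W.H Z × ι)}
    (hL : A.IsW Z L (s.map π)) : ∃ (L₀ : List (W.H Z × ι)) (r : W.K), A.IsW Z L₀ s ∧ r ≠ 0 ∧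
      S.σ Z (wv L₀) = r • wv L := by
  have key : ∀ L : List (W.H Z × ι), (∀ b ∈ L, b.1 ∈ A.mem b.2 Z) →
      ∃ (L₀ : List (W.H Z × ι)) (r : W.K), (∀ b ∈ L₀, b.1 ∈ A.mem b.2 Z) ∧
        L₀.map Prod.snd = (L.map Prod.snd).map π.symm ∧ r ≠ 0 ∧ S.σ Z (wv L₀) = r • wv L := by
    intro L
    induction L with
    | nil =>
      intro _
      refine ⟨[], 1, fun b hb => absurd hb List.not_mem_nil, rfl, one_ne_zero, ?_⟩
      rw [wv_nil, one_smul]
      exact σ_one
    | cons b L ih =>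
      intro hb
      obtain ⟨L₀, r, h1, h2, h3, h4⟩ := ih fun c hc => hb c (List.mem_cons_of_mem _ hc)
      have h5 : b.1 ∈ A.mem (π (π.symm b.2)) Z := by
        rw [Equiv.apply_symm_apply]
        exact hb b (List.mem_cons_self ..)
      obtain ⟨y, hy, r', hr', h6⟩ := h _ Z b.1 h5
      refine ⟨(y, π.symm b.2) :: L₀, r' * r, ?_, ?_, mul_ne_zero hr' h3, ?_⟩
      · intro c hc
        rcases List.mem_cons.1 hc with rfl | hc
        · exact hy
        · exact h1 c hc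
      · rw [List.map_cons, List.map_cons, List.map_cons, h2]
      · rw [wv_cons, S.mul, h4, h6, wv_cons, smul_mul_smul_comm]
  obtain ⟨L₀, r, h1, h2, h3, h4⟩ := key L hL.1
  refine ⟨L₀, r, ⟨h1, ?_⟩, h3, h4⟩
  rw [h2, ← Multiset.map_coe, hL.2, Multiset.map_map]
  simp

lemma UAl.gal {S : SemiLin W} {π : Equiv.Perm ι} (h : A.IsGal S π) (hs : A.UAl s) :
    A.UAl (s.map π) := by
  intro Z L hL
  obtain ⟨L₀, r, h1, h2, h3⟩ := h.word hL
  have h4 := σ_alg S (hs Z L₀ h1)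
  rw [h3] at h4
  have h5 := Submodule.smul_mem _ r⁻¹ h4
  rwa [smul_smul, inv_mul_cancel₀ h2, one_smul] at h5

/-- A pair of letters which can be cancelled. -/
def IsPair (A : Alph W ι) (l m : ι) : Prop :=
  ∃ (B : 𝒱.Obj) (y a b : W.H B), y ∈ Alg W B ∧ a ∈ A.mem l B ∧ b ∈ A.mem m B ∧
    W.tr B (y * (a * b)) ≠ 0

variable (A)

/-- The classes on `Z` whose external products with the words of type `s` are algebraic. -/
noncomputable def HSA (s : Multiset ι) (Z : 𝒱.Obj) : Submodule W.K (W.H Z) where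
  carrier := {x | ∀ (Z' : 𝒱.Obj) (L : List (W.H Z' × ι)), A.IsW Z' L s → ER x (wv L)}
  zero_mem' := by
    intro Z' L _
    rw [ER, ext_zero_left]
    exact Submodule.zero_mem _
  add_mem' := by
    intro x y hx hy Z' L hL
    rw [ER, ext_add_left]
    exact Submodule.add_mem _ (hx Z' L hL) (hy Z' L hL)
  smul_mem' := by
    intro c x hx Z' L hL
    rw [ER, ext_smul_left]
    exact Submodule.smul_mem _ _ (hx Z' L hL)

variable {A}

lemma hsa_zero {x : W.H Z} : x ∈ A.HSA 0 Z ↔ x ∈ Alg W Z := by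
  constructor
  · intro h
    have h1 := h Z [] IsW.nil
    rw [ER, wv_nil, ext, map_one, mul_one] at h1
    have h2 := Alg.map (diag Z) h1
    rw [← W.map_comp] at h2
    have e : diag Z ≫ fst Z Z = 𝟙 Z := Obj.lift_fst _ _
    rwa [e, W.map_id] at h2
  · intro h Z' L hL
    rw [hL.eq_nil, ER, wv_nil, ext, map_one, mul_one]
    exact Alg.map _ h

lemma hsa_map (g : Z ⟶ Z') {x : W.H Z'} (hx : x ∈ A.HSA s Z') : W.map g x ∈ A.HSA s Z := by
  intro Y L hL
  have h1 := Alg.map (Obj.lift (fst Z Y ≫ g) (snd Z Y)) (hx Y L hL)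
  rw [ext, map_mul, ← W.map_comp, ← W.map_comp, Obj.lift_fst, Obj.lift_snd, W.map_comp] at h1
  exact h1

lemma hsa_push (g : Z ⟶ Z') {x : W.H Z} (hxh : Hom x) (hx : x ∈ A.HSA s Z) :
    W.push g x ∈ A.HSA s Z' :=
  fun Y L hL => er_push g hxh hL.hom (hx Y L hL)

lemma hsa_mul {x y : W.H Z} (hyh : Hom y) (hx : x ∈ A.HSA s Z) (hy : y ∈ A.HSA t Z) :
    x * y ∈ A.HSA (s + t) Z := by
  intro Y L hL
  obtain ⟨L₁, L₂, ε, hε, h1, h2, h3⟩ := hL.split
  have h4 := Alg.mul (hx Y L₁ h1) (hy Y L₂ h2)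
  obtain ⟨r, hr, e⟩ := comm_of_hom (hyh.map (fst Z Y)) (h1.hom.map (snd Z Y))
  have h5 : ext (x * y) (wv L) = (ε * r) • (ext x (wv L₁) * ext y (wv L₂)) := by
    rw [h3, ext, ext, ext, map_smul, map_mul, map_mul, mul_smul_comm, mul_assoc,
      ← mul_assoc (W.map (fst Z Y) y), e, smul_mul_assoc, mul_smul_comm, smul_smul]
    simp only [mul_assoc]
  rw [ER, h5]
  exact Submodule.smul_mem _ _ h4

lemma hsa_add_ual {x : W.H Z} (hx : x ∈ A.HSA s Z) (ht : A.UAl t) : x ∈ A.HSA (s + t) Z := by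
  intro Y L hL
  obtain ⟨L₁, L₂, ε, hε, h1, h2, h3⟩ := hL.split
  have h4 := Alg.mul (hx Y L₁ h1) (Alg.map (snd Z Y) (ht Y L₂ h2))
  have h5 : ext x (wv L) = ε • (ext x (wv L₁) * W.map (snd Z Y) (wv L₂)) := by
    rw [h3, ext, ext, map_smul, map_mul, mul_smul_comm, mul_assoc]
  rw [ER, h5]
  exact Submodule.smul_mem _ _ h4

/-- The word used for the cancellation. -/
lemma cancel_word {B : 𝒱.Obj} {l m : ι} {a b : W.H B} (ha : a ∈ A.mem l B) (hb : b ∈ A.mem m B)
    {L : List (W.H Y × ι)} (hL : A.IsW Y L s) :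
    A.IsW (B.prod Y) (pw' (snd B Y) L ++ pw' (fst B Y) [(a, l), (b, m)]) (s + {l, m}) :=
  (hL.map _).append ((IsW.pair ha hb).map _)

/-- The operator used for the cancellation. -/
lemma cancel_op {B : 𝒱.Obj} {y a b : W.H B} {l m : ι} (hy : y ∈ Alg W B)
    (ha : a ∈ A.mem l B) (hb : b ∈ A.mem m B) {L : List (W.H Y × ι)} (hL : A.IsW Y L s) :
    ∃ G ∈ AOp W (B.prod Y) Y, ∃ r : W.K, r ≠ 0 ∧
      G (wv (pw' (snd B Y) L ++ pw' (fst B Y) [(a, l), (b, m)])) =
        (r * W.tr B (y * (a * b))) • wv L := by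
  refine ⟨W.push (snd B Y) ∘ₗ LinearMap.mulLeft W.K (W.map (fst B Y) y),
    AOp.comp (AOp.push _) (AOp.mul (Alg.map _ hy)), ?_⟩
  obtain ⟨r, hr, e⟩ := comm_of_hom (hL.hom.map (snd B Y)) (((A.hom ha).mul (A.hom hb)).map (fst B Y))
  refine ⟨r, hr, ?_⟩
  have e1 : wv [(a, l), (b, m)] = a * b := by
    rw [wv_cons, wv_cons, wv_nil, mul_one]
  rw [LinearMap.comp_apply, LinearMap.mulLeft_apply, wv_append, ← map_wv, ← map_wv, e1, e,
    mul_smul_comm, map_smul, ← mul_assoc, ← map_mul, W.push_snd, smul_smul]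

lemma UAl.cancel {l m : ι} (hp : A.IsPair l m) (h : A.UAl (s + {l, m})) : A.UAl s := by
  obtain ⟨B, y, a, b, hy, ha, hb, ht⟩ := hp
  intro Y L hL
  obtain ⟨G, hG, r, hr, e⟩ := cancel_op hy ha hb hL
  have h1 := AOp.apply hG (h _ _ (cancel_word ha hb hL))
  rw [e] at h1
  have h3 := Submodule.smul_mem _ (r * W.tr B (y * (a * b)))⁻¹ h1
  rwa [smul_smul, inv_mul_cancel₀ (mul_ne_zero hr ht), one_smul] at h3

/-- Cancellation. -/
theorem hsa_cancel {l m : ι} (hp : A.IsPair l m) {x : W.H Z} (hxh : Hom x)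
    (h : x ∈ A.HSA (s + {l, m}) Z) : x ∈ A.HSA s Z := by
  obtain ⟨B, y, a, b, hy, ha, hb, ht⟩ := hp
  intro Y L hL
  obtain ⟨G, hG, r, hr, e⟩ := cancel_op hy ha hb hL
  have h2 := (h _ _ (cancel_word ha hb hL)).op (F := G) hxh (cancel_word ha hb hL).hom hG (by
    rw [e]
    exact hL.hom.smul _)
  rw [e] at h2
  have h3 : ER ((1 : W.K) • x) ((r * W.tr B (y * (a * b))) • wv L) := by
    rwa [one_smul]
  exact h3.of_smul one_ne_zero (mul_ne_zero hr ht)

variable (A)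

/-- The span of the homogeneous classes which belong to the spaces `HSA`. -/
noncomputable def GSA (Z : 𝒱.Obj) : Submodule W.K (W.H Z) :=
  Submodule.span W.K {x | Hom x ∧ ∃ s, x ∈ A.HSA s Z}

variable {A}

lemma GSA.alg {x : W.H Z} (hx : x ∈ Alg W Z) : x ∈ A.GSA Z := by
  induction hx using Submodule.span_induction with
  | mem x hx =>
    obtain ⟨j, z, hz, rfl⟩ := hx
    exact Submodule.subset_span ⟨⟨_, W.cl_mem hz⟩, 0, hsa_zero.2 (Alg.cl hz)⟩
  | zero => exact Submodule.zero_mem _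
  | add x y _ _ hx hy => exact Submodule.add_mem _ hx hy
  | smul c x _ hx => exact Submodule.smul_mem _ _ hx

lemma GSA.letter {x : W.H X} (hx : Hom x) {m : ι}
    (h : ∀ (Z : 𝒱.Obj), ∀ y ∈ A.mem m Z, ER x y) : x ∈ A.GSA X := by
  refine Submodule.subset_span ⟨hx, {m}, ?_⟩
  intro Y L hL
  obtain ⟨y, hy, rfl⟩ := hL.single
  rw [wv_cons, wv_nil, mul_one]
  exact h Y y hy

lemma GSA.map (g : Z ⟶ Z') {x : W.H Z'} (hx : x ∈ A.GSA Z') : W.map g x ∈ A.GSA Z := by
  induction hx using Submodule.span_induction with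
  | mem x hx =>
    obtain ⟨hh, s, hs⟩ := hx
    exact Submodule.subset_span ⟨hh.map g, s, hsa_map g hs⟩
  | zero => rw [map_zero]; exact Submodule.zero_mem _
  | add x y _ _ hx hy => rw [map_add]; exact Submodule.add_mem _ hx hy
  | smul c x _ hx => rw [map_smul]; exact Submodule.smul_mem _ _ hx

lemma GSA.push (g : Z ⟶ Z') {x : W.H Z} (hx : x ∈ A.GSA Z) : W.push g x ∈ A.GSA Z' := by
  induction hx using Submodule.span_induction with
  | mem x hx =>
    obtain ⟨hh, s, hs⟩ := hx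
    exact Submodule.subset_span ⟨hh.push g, s, hsa_push g hh hs⟩
  | zero => rw [map_zero]; exact Submodule.zero_mem _
  | add x y _ _ hx hy => rw [map_add]; exact Submodule.add_mem _ hx hy
  | smul c x _ hx => rw [map_smul]; exact Submodule.smul_mem _ _ hx

lemma GSA.mul {x y : W.H Z} (hx : x ∈ A.GSA Z) (hy : y ∈ A.GSA Z) : x * y ∈ A.GSA Z := by
  induction hx using Submodule.span_induction with
  | mem x hx =>
    obtain ⟨hh, s, hs⟩ := hx
    induction hy using Submodule.span_induction with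
    | mem y hy =>
      obtain ⟨hh', t, ht⟩ := hy
      exact Submodule.subset_span ⟨hh.mul hh', s + t, hsa_mul hh' hs ht⟩
    | zero => rw [mul_zero]; exact Submodule.zero_mem _
    | add x y _ _ hx hy => rw [mul_add]; exact Submodule.add_mem _ hx hy
    | smul c x _ hx => rw [mul_smul_comm]; exact Submodule.smul_mem _ _ hx
  | zero => rw [zero_mul]; exact Submodule.zero_mem _
  | add x y _ _ hx hy => rw [add_mul]; exact Submodule.add_mem _ hx hy
  | smul c x _ hx => rw [smul_mul_assoc]; exact Submodule.smul_mem _ _ hx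

end Alph

end Pool.Agent.Helper70Rk
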