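import Pool.Agent.Helper70_rk2.VCMot

/-!
# The letters of a motive of CM type
-/

open CategoryTheory AlgebraicGeometry TensorProduct

universe u v

namespace Pool.Agent.Helper70Rk

set_option linter.unusedSectionVars false
set_option linter.unusedVariables false

open Pool.Agent.H914 Pool.Agent.H914.VarClass Pool.Agent.H914.VarClass.Obj
  Pool.Agent.H914.WeilCohomology Pool.Agent.Y121.AHS Pool.Agent.R908

variable {k : Type u} [Field k] {𝒱 : VarClass k} {ops : CycleOps 𝒱}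

lemma tr_corr_ext {V : WeilCohomology.{u, v} ops} {X Y : 𝒱.Obj} (c : V.H (X.prod Y)) (a : V.H X)
    (b : V.H Y) : V.tr (X.prod Y) (c * ext a b) = V.tr Y (V.corr c a * b) := by
  rw [corr_apply, ext, ← mul_assoc, ← V.tr_push]

variable {T : HodgeTheory ops} {X Y : 𝒱.Obj} {w : ℕ} {π P Q f : (X.prod X).Cycles} {R : Finset ℂ}
  {e : ℂ → ℤ}

/-- The permutation of the index set given by an automorphism of the field of complex numbers. -/
def permR (hR : ∀ (τ : ℂ ≃+* ℂ), ∀ z ∈ R, τ z ∈ R) (τ : ℂ ≃+* ℂ) : Equiv.Perm (Ix R) where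
  toFun z := ⟨τ z.1, hR τ z.1 z.2⟩
  invFun z := ⟨τ.symm z.1, hR τ.symm z.1 z.2⟩
  left_inv z := Subtype.ext (τ.symm_apply_apply _)
  right_inv z := Subtype.ext (τ.apply_symm_apply _)

namespace CMM

variable (M : CMM T X w π P Q f R e) (E : EigMot (VC T) X w (opc T π) (opc T f) (Ix R))
  (hmu : ∀ l, E.mu l = (show (VC T).K from l.1))

include hmu in
lemma gal_u (τ : ℂ ≃+* ℂ) (l : Ix R) : ∃ m : Ix R, m.1 = τ l.1 ∧
    ∃ s : (VC T).K, s ≠ 0 ∧ (sC T τ).σ X (E.u l) = s • E.u m := by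
  have h1 : opc T π ((sC T τ).σ X (E.u l)) = (sC T τ).σ X (E.u l) := by
    rw [← sC_corr]
    exact congrArg _ (E.pi l)
  have h2 : (sC T τ).σ X (E.u l) ≠ 0 := fun h => E.ne l ((sC T τ).inj _ h)
  have h3 : opc T f ((sC T τ).σ X (E.u l)) = (sC T τ).τ (E.mu l) • (sC T τ).σ X (E.u l) := by
    rw [← sC_corr, ← (sC T τ).smul]
    exact congrArg _ (E.eig l)
  obtain ⟨m, hm, s, hs, h4⟩ := E.uni h1 h2 h3
  rw [hmu, hmu] at hm
  exact ⟨m, hm, s, hs, h4⟩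

include M in
lemma stab (τ : ℂ ≃+* ℂ) : ∀ z ∈ R, τ z ∈ R := by
  intro z hz
  obtain ⟨E, hmu, -⟩ := M.exists_eig
  obtain ⟨m, hm, -⟩ := gal_u E hmu τ ⟨z, hz⟩
  rw [← hm]
  exact m.2

include hmu in
lemma gal_perm (hR : ∀ (τ : ℂ ≃+* ℂ), ∀ z ∈ R, τ z ∈ R) (τ : ℂ ≃+* ℂ) (l : Ix R) :
    ∃ s : (VC T).K, s ≠ 0 ∧ (sC T τ).σ X (E.u l) = s • E.u (permR hR τ l) := by
  obtain ⟨m, hm, s, hs, h⟩ := gal_u E hmu τ l
  have e1 : m = permR hR τ l := Subtype.ext hm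
  rw [← e1]
  exact ⟨s, hs, h⟩

/-- The complex conjugate. -/
lemma kap2_u (hR : ∀ (τ : ℂ ≃+* ℂ), ∀ z ∈ R, τ z ∈ R)
    (ht : ∀ l : Ix R, ∃ p q : ℤ, E.u l ∈ tp T X p q ∧ e l.1 = p - q) (M : CMM T X w π P Q f R e)
    (hmu : ∀ l, E.mu l = (show (VC T).K from l.1)) (l : Ix R) :
    e (permR hR cc l).1 = - e l.1 ∧
      (VC T).tr X (opc T P (E.u l) * E.u (permR hR cc l)) ≠ 0 := by
  obtain ⟨s, hs, h1⟩ := gal_perm E hmu hR cc l
  obtain ⟨p, q, h2, h3⟩ := ht l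
  obtain ⟨p', q', h4, h5⟩ := ht (permR hR cc l)
  have h6 := M.conj p q (E.u l) (E.pi l) h2
  have h7 : E.u (permR hR cc l) ∈ tp T X q p := by
    have h8 : E.u (permR hR cc l) = s⁻¹ • (sC T cc).σ X (E.u l) := by
      rw [h1, smul_smul, inv_mul_cancel₀ hs, one_smul]
    rw [h8]
    exact Submodule.smul_mem _ _ h6
  constructor
  · have h8 : (p', q') = (q, p) := by
      by_contra hne
      exact E.ne _ (tp_disj h4 h7 hne)
    rw [Prod.mk.injEq] at h8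
    rw [h5, h3, h8.1, h8.2]
    ring
  · intro h8
    apply M.riemann p q (E.u l) (E.pi l) h2 (E.ne l)
    rw [h1, mul_smul_comm, map_smul, h8, smul_zero]

end CMM

/-- The letters of a motive of CM type. -/
structure LData (T : HodgeTheory ops) (X : 𝒱.Obj) (π P : (X.prod X).Cycles) (R : Finset ℂ)
    (e : ℂ → ℤ) where
  stab : ∀ (τ : ℂ ≃+* ℂ), ∀ z ∈ R, τ z ∈ R
  /-- the letters -/
  u : Ix R → (VC T).H X
  hom : ∀ l, Hom (u l)
  ne : ∀ l, u l ≠ 0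
  gal : ∀ τ l, ∃ s : (VC T).K, s ≠ 0 ∧ (sC T τ).σ X (u l) = s • u (permR stab τ l)
  alg : (VC T).cl _ P ∈ Alg (VC T) (X.prod X)
  er : ∀ l, ER (u l) (u (permR stab cc l))
  tr : ∀ l, (VC T).tr (X.prod X) ((VC T).cl _ P * ext (u l) (u (permR stab cc l))) ≠ 0
  ty : ∀ l, ∃ p q : ℤ, u l ∈ tp T X p q ∧ e l.1 = p - q
  anti : ∀ l : Ix R, e (permR stab cc l).1 = - e l.1
  span : ∀ x, opc T π x = x → ∃ c : Ix R → (VC T).K, x = ∑ l, c l • u l

theorem CMM.data (M : CMM T X w π P Q f R e) : Nonempty (LData T X π P R e) := by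
  classical
  obtain ⟨E, hmu, ht⟩ := M.exists_eig
  have hR := M.stab
  obtain ⟨u', h1, h2, h3, h4⟩ := E.exists_dual
  obtain ⟨p, hp, hP⟩ := M.cycP
  obtain ⟨q, hQ⟩ := M.cycQ
  have hκκ : ∀ l, permR hR cc (permR hR cc l) = l := fun l => Subtype.ext (Complex.conj_conj l.1)
  have hu : ∀ l, Hom (E.u l) := fun l => ⟨w, E.pi l ▸ E.gr _⟩
  have hpol : E.IsPol (opc T P) (opc T Q) := ⟨AOp.cyc hP, AOp.cyc hQ, M.dual, M.inv⟩
  obtain ⟨hpair, hpair'⟩ := hpol.pairs h1 h2 h3 h4 (sC T cc) (sC_surj cc) (sC_tr cc)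
    (fun x => sC_corr cc π x) hκκ (gal_perm E hmu hR cc) fun l => (kap2_u E hR ht M hmu l).2
  exact ⟨{
    stab := hR
    u := E.u
    hom := hu
    ne := E.ne
    gal := gal_perm E hmu hR
    alg := Alg.cl hP
    er := fun l => (hpair l).swap (hu _) (hu _)
    tr := fun l => by
      rw [tr_corr_ext]
      exact (kap2_u E hR ht M hmu l).2
    ty := ht
    anti := fun l => (kap2_u E hR ht M hmu l).1
    span := fun x hx => ⟨fun l => (VC T).tr X (u' l * x), by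
      conv_lhs => rw [← hx]
      exact h4 x⟩ }⟩

end Pool.Agent.Helper70Rk
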