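import Pool.Agent.Helper70_rk1.RkDefs

/-!
# Polarised motives of CM type and the classes which they generate: definitions
-/

open CategoryTheory AlgebraicGeometry

universe u

namespace Pool.Agent.Helper70Rk

open Pool.Agent.H914 Pool.Agent.H914.VarClass Pool.Agent.H914.VarClass.Obj
  Pool.Agent.H914.WeilCohomology Pool.Agent.Y121.AHS

section One

variable {k : Type u} [Field k] {𝒱 : VarClass k} {ops : CycleOps 𝒱} {T : HodgeTheory ops}
  {X : 𝒱.Obj}

/-- The class `x` on `X` belongs to the realisation `V` of the motive `(X, π)`, where `π` is an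
idempotent correspondence. -/
def InMot (π : (X.prod X).Cycles) (x : HL T.W ℂ X) : Prop := act T π x = x

/-- A polarised motive `V = (X, π)` of weight `w`: the correspondence `π` of degree zero acts as an
idempotent on the cohomology with an image `V` in degree `w`, the correspondence `P` defines an
isomorphism from `V` to the dual motive `(X, πᵗ)` twisted by `-w`, with the inverse `Q`, the complex
conjugates of the classes of type `(p, q)` in `V` are of type `(q, p)`, and the form `tr (P x · x̄)` does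
not vanish for `x ≠ 0` of type `(p, q)` in `V`. -/
structure IsPolMotive (T : HodgeTheory ops) (w : ℕ) (π P Q : (X.prod X).Cycles) : Prop where
  cyc : (X.prod X).IsCyc X.dim π
  idem : ∀ x : HL T.W ℂ X, InMot π (act T π x)
  deg : ∀ x : HL T.W ℂ X, InMot π x → IsDeg w x
  cycP : ∃ p, p + w = 2 * X.dim ∧ (X.prod X).IsCyc p P
  cycQ : (X.prod X).IsCyc w Q
  dual : ∀ x y : HL T.W ℂ X, InMot π x →
    trL (mulL (act T P x) y) = trL (mulL (act T P x) (act T π y))
  inv : ∀ x : HL T.W ℂ X, InMot π x → act T Q (act T P x) = x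
  conj : ∀ (p q : ℤ) (x y : HL T.W ℂ X), InMot π x → IsType T.pq p q x → IsConj x y →
    IsType T.pq q p y
  riemann : ∀ (p q : ℤ) (x y : HL T.W ℂ X), InMot π x → IsType T.pq p q x → IsConj x y → x ≠ 0 →
    trL (mulL (act T P x) y) ≠ 0

/-- The motive `V = (X, π)` is of CM type: the correspondence `f` of degree zero has on `V` a basis of
eigenvectors `u z` with different eigenvalues `z`, for `z` in `R`, and `u z` is of a type `(p, q)` with
`p - q = e z`. (So `f` generates a commutative algebra of endomorphisms of `V` whose degree is the rank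
of `V`.) -/
def IsCMMotive (T : HodgeTheory ops) (π f : (X.prod X).Cycles) (R : Finset ℂ) (e : ℂ → ℤ) : Prop :=
  (X.prod X).IsCyc X.dim f ∧ ∃ u : ℂ → HL T.W ℂ X,
    (∀ z ∈ R, u z ≠ 0 ∧ InMot π (u z) ∧ act T f (u z) = smL z (u z) ∧
      ∃ p q : ℤ, IsType T.pq p q (u z) ∧ p - q = e z) ∧
    ∀ x, InMot π x → ∃ c : ℂ → ℂ, x = ∑ z ∈ R, smL (c z) (u z)

end One

section Family

variable {k : Type u} [Field k] {𝒱 : VarClass k} {ops : CycleOps 𝒱} {T : HodgeTheory ops}
  {N : ℕ} {X : Fin N → 𝒱.Obj}

/-- The classes which are obtained from the classes in the realisations `V i` of the motives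
`(X i, π i)` and from the classes of cycles, on arbitrary varieties, by linear combinations, products,
pull-backs and push-forwards. -/
inductive Gen (π : ∀ i, ((X i).prod (X i)).Cycles) : ∀ Z : 𝒱.Obj, HL T.W ℂ Z → Prop
  | mot {i : Fin N} {x : HL T.W ℂ (X i)} : InMot (π i) x → Gen π (X i) x
  | cyc {Z : 𝒱.Obj} {j : ℕ} {c : Z.Cycles} : Z.IsCyc j c → Gen π Z (cy T c)
  | add {Z : 𝒱.Obj} {x y : HL T.W ℂ Z} : Gen π Z x → Gen π Z y → Gen π Z (x + y)
  | smul {Z : 𝒱.Obj} {x : HL T.W ℂ Z} (r : ℂ) : Gen π Z x → Gen π Z (smL r x)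
  | mul {Z : 𝒱.Obj} {x y : HL T.W ℂ Z} : Gen π Z x → Gen π Z y → Gen π Z (mulL x y)
  | pull {Z Z' : 𝒱.Obj} (g : Z ⟶ Z') {x : HL T.W ℂ Z'} : Gen π Z' x → Gen π Z (mapL g x)
  | push {Z Z' : 𝒱.Obj} (g : Z ⟶ Z') {x : HL T.W ℂ Z} : Gen π Z x → Gen π Z' (pushL g x)

/-- The rank-one motive defined by the correspondence `z` on `Y` belongs to the tensor category
generated by the motives `V i = (X i, π i)`: the correspondence acts as `x ↦ tr (y' x) y`, where the
class `y`, which spans the realisation of `(Y, z)`, and the class `y'`, which spans the realisation of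
the dual motive, are both generated by the `V i` and by classes of cycles. -/
def IsGenBy (T : HodgeTheory ops) (Y : 𝒱.Obj) (z : (Y.prod Y).Cycles)
    (π : ∀ i, ((X i).prod (X i)).Cycles) : Prop :=
  ∃ y y' : HL T.W ℂ Y, Gen (T := T) π Y y ∧ Gen (T := T) π Y y' ∧
    ∀ x, act T z x = smL (trL (mulL y' x)) y

end Family

end Pool.Agent.Helper70Rk
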