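import Pool.Agent.Helper70_rk3.VCFam2
import Pool.Agent.Helper70_rk3.FamDefs
import Pool.Agent.Helper70_rk1.Bridge2

/-!
# Rank-one motives generated by motives of CM type
-/

open CategoryTheory AlgebraicGeometry TensorProduct

universe u v

namespace Pool.Agent.Helper70Rk

set_option linter.unusedSectionVars false
set_option linter.unusedVariables false

open Pool.Agent.H914 Pool.Agent.H914.VarClass Pool.Agent.H914.VarClass.Obj
  Pool.Agent.H914.WeilCohomology Pool.Agent.Y121.AHS Pool.Agent.R908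

section Bridge

variable {k : Type u} [Field k] {𝒱 : VarClass k} {ops : CycleOps 𝒱}
  {T : HodgeTheory ops} {X Y : 𝒱.Obj} {w : ℕ} {π P Q f : (X.prod X).Cycles} {R : Finset ℂ}
  {e : ℂ → ℤ}

lemma trL_vc (x : HL T.W ℂ X) : trL x = (VC T).tr X (show (VC T).H X from x) := rfl

lemma opc_em (z : (X.prod Y).Cycles) (a : T.W.H X) :
    opc T z (em T a) = em T (T.W.corr (T.W.cl _ z) a) := by
  have h2 := corrOp_base (L := ℂ) (T.W.map (fst X Y)) (T.W.push (snd X Y)) (T.W.cl _ z)
  have h3 := congrArg (fun F => F ((1 : ℂ) ⊗ₜ[T.W.K] a)) h2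
  beta_reduce at h3
  rw [LinearMap.baseChange_tmul] at h3
  exact h3

lemma act_eq (z : (X.prod Y).Cycles) (x : HL T.W ℂ X) :
    act T z x = (show HL T.W ℂ Y from opc T z (show (VC T).H X from x)) := by
  refine hl_induction (P := fun x => act T z x =
    (show HL T.W ℂ Y from opc T z (show (VC T).H X from x))) ?_ ?_ ?_ x
  · rw [act_zero]
    exact (map_zero (opc T z)).symm
  · intro x y hx hy
    rw [act_add, hx, hy]
    exact (map_add (opc T z) _ _).symm
  · intro l a
    rw [act_sm, act_ee]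
    have h2 := map_smul (opc T z) (show (VC T).K from l) (em T a)
    rw [opc_em] at h2
    exact h2.symm

lemma cmm_of (h : IsPolMotive T w π P Q) (h' : IsCMMotive T π f R e) :
    CMM T X w π P Q f R e := by
  have hmot : ∀ x : (VC T).H X, opc T π x = x ↔ InMot (T := T) π x := by
    intro x
    rw [InMot, act_eq]
    rfl
  have him : ∀ x : (VC T).H X, InMot (T := T) π (opc T π x) := by
    intro x
    have h1 := h.idem x
    rw [act_eq] at h1
    exact h1
  refine ⟨h.cyc, h.cycP, ⟨_, h.cycQ⟩, ⟨_, h'.1⟩, fun x => h.deg _ (him x), fun x y => ?_,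
    fun x => ?_, fun p q x hx hpq => ?_, fun p q x hx hpq h0 => ?_, ?_⟩
  · have h1 := h.dual (opc T π x) y (him x)
    rw [trL_vc, trL_vc, act_eq, act_eq] at h1
    exact h1
  · have h1 := h.inv (opc T π x) (him x)
    rw [act_eq, act_eq] at h1
    exact h1
  · exact h.conj p q x _ ((hmot x).1 hx) hpq (isConj_cc T x)
  · have h1 := h.riemann p q x _ ((hmot x).1 hx) hpq (isConj_cc T x) h0
    rw [trL_vc, act_eq] at h1
    exact h1
  · obtain ⟨u, hu, hs⟩ := h'.2
    refine ⟨u, fun z hz => ?_, fun x => ?_⟩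
    · obtain ⟨h1, h2, h3, p, q, h4, h5⟩ := hu z hz
      refine ⟨h1, (hmot _).2 h2, ?_, p, q, h4, h5.symm⟩
      rw [act_eq] at h3
      exact h3
    · obtain ⟨c, hc⟩ := hs (opc T π x) (him x)
      exact ⟨c, hc⟩

end Bridge

section Main

variable {k : Type u} [Field k] {𝒱 : VarClass k} {ops : CycleOps 𝒱}
  {T : HodgeTheory ops} {N : ℕ} {X : Fin N → 𝒱.Obj} {w : Fin N → ℕ}
  {π P Q f : ∀ i, ((X i).prod (X i)).Cycles} {R : Fin N → Finset ℂ} {e : Fin N → ℂ → ℤ}

/-- The generated classes. -/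
lemma gen_gsa (D : ∀ i, LData T (X i) (π i) (P i) (R i) (e i)) {Z : 𝒱.Obj} {x : HL T.W ℂ Z}
    (h : Gen (T := T) π Z x) : (show (VC T).H Z from x) ∈ (alph D).GSA Z := by
  induction h with
  | @mot i x hx =>
    rw [InMot, act_eq] at hx
    exact alph_mot D i hx
  | cyc hc => exact Alph.GSA.alg (Alg.cl (V := VC T) hc)
  | add _ _ h1 h2 => exact Submodule.add_mem _ h1 h2
  | smul r _ h1 => exact Submodule.smul_mem _ _ h1
  | mul _ _ h1 h2 => exact Alph.GSA.mul h1 h2
  | pull g _ h1 =>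
    have h2 := Alph.GSA.map g h1
    rw [mapL_eq] at h2
    exact h2
  | push g _ h1 => exact Alph.GSA.push g h1

/-- **The main theorem.** -/
theorem main_fam (h : ∀ i, IsPolMotive T (w i) (π i) (P i) (Q i))
    (h' : ∀ i, IsCMMotive T (π i) (f i) (R i) (e i))
    (hR : (Indep R e ∧ ∀ i, GoodEigs (R i) ∧ SameParity (R i) (e i)) ∨ OddSymF R e)
    {Y : 𝒱.Obj} {z : (Y.prod Y).Cycles} (hz : IsRkOne T Y z) (hgen : IsGenBy T Y z π) :
    IsTateMotive T Y z := by
  have hD : ∀ i, Nonempty (LData T (X i) (π i) (P i) (R i) (e i)) :=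
    fun i => (cmm_of (h i) (h' i)).data
  let D : ∀ i, LData T (X i) (π i) (P i) (R i) (e i) := fun i => (hD i).some
  have hodd : OddSymF R e := by
    rcases hR with ⟨h1, h2⟩ | h1
    · exact oddSymF_good (fun i => (D i).stab) (fun i z hz => (D i).anti ⟨z, hz⟩) h1
        (fun i => (h2 i).1) fun i => (h2 i).2
    · exact h1
  apply tate_of
  obtain ⟨hz, hid, hr⟩ := rankOne_of hz
  obtain ⟨i, v, w', hi, hv0, hw0, hv, hw, htr, hform, hext⟩ := rank_one_form hz hid hr
  obtain ⟨y, y', hy, hy', hact⟩ := hgen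
  have hy1 := gen_gsa D hy
  have hy2 := gen_gsa D hy'
  -- the two descriptions of the operator
  have h1 : ∀ x : (VC T).H Y, opc T z x =
      (VC T).tr Y ((show (VC T).H Y from y') * x) • (show (VC T).H Y from y) := by
    intro x
    have h2 := hact x
    rw [act_eq] at h2
    exact h2
  have h2 : ∀ x : (VC T).H Y, opc T z x = (VC T).tr Y (em T w' * x) • em T v := by
    intro x
    refine vc_induction (P := fun x => opc T z x = (VC T).tr Y (em T w' * x) • em T v)
      ?_ ?_ ?_ x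
    · rw [map_zero, mul_zero, map_zero, zero_smul]
    · intro x x' hx hx'
      rw [map_add, hx, hx', mul_add, map_add, add_smul]
    · intro l a
      rw [LinearMap.map_smul, opc_em, hform, mul_smul_comm, LinearMap.map_smul, ← em_mul, tr_em,
        smul_assoc]
      congr 1
      have h3 : ((1 : ℂ) ⊗ₜ[T.W.K] (T.W.tr Y (w' * a) • v) : ℂ ⊗[T.W.K] T.W.H Y) =
          (algebraMap T.W.K ℂ (T.W.tr Y (w' * a))) • ((1 : ℂ) ⊗ₜ[T.W.K] v) := by
        rw [TensorProduct.tmul_smul, ← algebraMap_smul ℂ (T.W.tr Y (w' * a))]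
      exact h3
  generalize (show (VC T).H Y from y) = y₁ at *
  generalize (show (VC T).H Y from y') = y₂ at *
  have htr' : (VC T).tr Y (em T w' * em T v) = 1 := by
    rw [← em_mul, tr_em, htr, map_one]
    rfl
  set r := (VC T).tr Y (y₂ * em T v) with hr
  have h3 : em T v = r • y₁ := by
    rw [← h1, h2, htr', one_smul]
  have hv0' : em T v ≠ 0 := fun h => hv0 (tmul_injective _ h)
  have hr0 : r ≠ 0 := by
    intro h0
    rw [h0, zero_smul] at h3
    exact hv0' h3
  have hy0 : y₁ ≠ 0 := by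
    intro h0
    rw [h0, smul_zero] at h3
    exact hv0' h3
  have h4 : y₂ = r • em T w' := by
    apply (VC T).tr_ext
    intro x
    have h5 := h1 x
    rw [h2, h3, smul_smul] at h5
    have h6 : ((VC T).tr Y (em T w' * x) * r - (VC T).tr Y (y₂ * x)) • y₁ = 0 := by
      rw [sub_smul, h5, sub_self]
    rw [smul_mul_assoc, map_smul, smul_eq_mul, mul_comm]
    exact (sub_eq_zero.1 ((smul_eq_zero.1 h6).resolve_right hy0)).symm
  have hvG : em T v ∈ (alph D).GSA Y := by
    rw [h3]
    exact Submodule.smul_mem _ _ hy1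
  have hwG : em T w' ∈ (alph D).GSA Y := by
    have h5 : em T w' = r⁻¹ • y₂ := by
      rw [h4, smul_smul, inv_mul_cancel₀ hr0, one_smul]
    rw [h5]
    exact Submodule.smul_mem _ _ hy2
  have hER : ER (em T w') (em T v) := by
    rw [ER, ext, em_map, em_map, ← em_mul, hext]
    exact em_smul_alg (Alg.cl (V := VC T) hz) _
  obtain ⟨h5, h6⟩ := fam_halves D hodd hvG hwG (fun τ => sC_em T τ v) ⟨_, em_gr hv⟩
    ⟨_, em_gr hw⟩ hER (by rw [htr']; exact one_ne_zero)
  obtain ⟨j, c, hj, hc, ec⟩ := alg_cycle T.rat (algIn_desc (alg_hom h5 (em_gr hv))) hv0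
  obtain ⟨j', c', hj', hc', ec'⟩ := alg_cycle T.rat (algIn_desc (alg_hom h6 (em_gr hw))) hw0
  have hcomm : ∀ x : T.W.H Y, w' * x = x * w' := by
    intro x
    rw [← ec']
    exact T.W.even_comm (T.W.cl_mem hc') x
  refine ⟨j, j', c, c', by omega, hc, hc', ?_, fun x => ?_⟩
  · rw [ec, ec', ← hcomm, htr]
  · rw [hform, ec, ec', hcomm]

end Main

end Pool.Agent.Helper70Rk
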