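import Pool.Agent.Helper70_rk2.NumDefs2

/-!
# Relations between the Hodge types of families of eigenlines: definitions
-/

namespace Pool.Agent.Helper70Rk

variable {N : ℕ}

/-- The integers `a i z` satisfy the relations `∑ a i z · e i (τ z) = 0`, the sum over the `i` and over
the `z` in `R i`, for all automorphisms `τ` of the field of complex numbers. -/
def IsRelF (R : Fin N → Finset ℂ) (e a : Fin N → ℂ → ℤ) : Prop :=
  ∀ τ : ℂ ≃+* ℂ, ∑ i, ∑ z ∈ R i, a i z * e i (τ z) = 0

/-- There are no real numbers in the sets `R i`, and for every relation `a` there is an odd number of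
automorphisms `τ j` such that the sum of the conjugates `a ∘ τ j` is symmetric under complex
conjugation. -/
def OddSymF (R : Fin N → Finset ℂ) (e : Fin N → ℂ → ℤ) : Prop :=
  (∀ i, ∀ z ∈ R i, starRingEnd ℂ z ≠ z) ∧
    ∀ a : Fin N → ℂ → ℤ, IsRelF R e a → ∃ (r : ℕ) (τ : Fin r → (ℂ ≃+* ℂ)), Odd r ∧
      ∀ i, ∀ z ∈ R i, ∑ j, a i (τ j z) = ∑ j, a i (τ j (starRingEnd ℂ z))

/-- There are no relations between the Hodge types for different `i`: the components `a i` of a
relation `a` are relations. (So the Hodge group of the direct sum of the motives is the product of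
their Hodge groups.) -/
def Indep (R : Fin N → Finset ℂ) (e : Fin N → ℂ → ℤ) : Prop :=
  ∀ a : Fin N → ℂ → ℤ, IsRelF R e a → ∀ i, IsRel (R i) (e i) (a i)

end Pool.Agent.Helper70Rk
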