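import Pool.Agent.Helper70_rk3.FamNum
import Pool.Agent.Helper70_rk2.Cyc2

/-!
# Families of motives of CM type: relations
-/

namespace Pool.Agent.Helper70Rk

set_option linter.unusedSectionVars false
set_option linter.unusedVariables false

variable {N : ℕ}

/-- Conjugates of relations. -/
lemma isRelF_sum {R : Fin N → Finset ℂ} {e a : Fin N → ℂ → ℤ}
    (hR : ∀ i (τ : ℂ ≃+* ℂ), ∀ z ∈ R i, τ z ∈ R i) (ha : IsRelF R e a) {r : ℕ}
    (τ : Fin r → (ℂ ≃+* ℂ)) : IsRelF R e fun i z => ∑ j, a i (τ j z) := by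
  classical
  intro σ
  have h1 : ∀ j, ∑ i, ∑ z ∈ R i, a i (τ j z) * e i (σ z) = 0 := by
    intro j
    rw [← ha ((τ j).symm.trans σ)]
    refine Finset.sum_congr rfl fun i _ => ?_
    refine Finset.sum_bij' (fun z _ => τ j z) (fun z _ => (τ j).symm z) ?_ ?_ ?_ ?_ ?_
    · intro z hz; exact hR i _ z hz
    · intro z hz; exact hR i _ z hz
    · intro z _; exact (τ j).symm_apply_apply z
    · intro z _; exact (τ j).apply_symm_apply z
    · intro z _
      rw [RingEquiv.trans_apply, RingEquiv.symm_apply_apply]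
  have h2 : ∑ i, ∑ z ∈ R i, (∑ j, a i (τ j z)) * e i (σ z) =
      ∑ j, ∑ i, ∑ z ∈ R i, a i (τ j z) * e i (σ z) := by
    rw [Finset.sum_comm]
    refine Finset.sum_congr rfl fun i _ => ?_
    rw [Finset.sum_comm]
    exact Finset.sum_congr rfl fun z _ => Finset.sum_mul _ _ _
  beta_reduce
  rw [h2]
  exact Finset.sum_eq_zero fun j _ => h1 j

/-- **Families of independent good motives.** -/
theorem oddSymF_good {R : Fin N → Finset ℂ} {e : Fin N → ℂ → ℤ}
    (hR : ∀ i (τ : ℂ ≃+* ℂ), ∀ z ∈ R i, τ z ∈ R i)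
    (he : ∀ i, ∀ z ∈ R i, e i (starRingEnd ℂ z) = - e i z) (hind : Indep R e)
    (hg : ∀ i, GoodEigs (R i)) (hs : ∀ i, SameParity (R i) (e i)) : OddSymF R e := by
  classical
  have h0 : ∀ i, OddSym (R i) (e i) := fun i => oddSym_good (hR i) (he i) (hg i) (hs i)
  refine ⟨fun i => (h0 i).1, fun a ha => ?_⟩
  have key : ∀ m : ℕ, m ≤ N → ∃ (r : ℕ) (τ : Fin r → (ℂ ≃+* ℂ)), Odd r ∧
      ∀ i : Fin N, i.1 < m → ∀ z ∈ R i,
        ∑ j, a i (τ j z) = ∑ j, a i (τ j (starRingEnd ℂ z)) := by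
    intro m
    induction m with
    | zero =>
      intro _
      exact ⟨1, fun _ => RingEquiv.refl ℂ, odd_one, fun i hi => absurd hi (Nat.not_lt_zero _)⟩
    | succ m ih =>
      intro hm
      obtain ⟨r, τ, hr, h1⟩ := ih (by omega)
      have h2 := isRelF_sum hR ha τ
      obtain ⟨r', τ', hr', h3⟩ := (h0 ⟨m, hm⟩).2 _ (hind _ h2 ⟨m, hm⟩)
      refine ⟨r * r', fun x => (τ' (finProdFinEquiv.symm x).2).trans (τ (finProdFinEquiv.symm x).1),
        hr.mul hr', ?_⟩
      have h4 : ∀ (i : Fin N) (z : ℂ), ∑ x : Fin (r * r'), a i (((τ' (finProdFinEquiv.symm x).2).trans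
          (τ (finProdFinEquiv.symm x).1)) z) = ∑ k, ∑ j, a i (τ j (τ' k z)) := by
        intro i z
        rw [Equiv.sum_comp (finProdFinEquiv (m := r) (n := r')).symm
          (fun p : Fin r × Fin r' => a i (((τ' p.2).trans (τ p.1)) z)), Fintype.sum_prod_type,
          Finset.sum_comm]
        rfl
      intro i hi z hz
      rw [h4, h4]
      by_cases him : i.1 = m
      · have h5 : i = ⟨m, hm⟩ := Fin.ext him
        subst h5
        exact h3 z hz
      · refine Finset.sum_congr rfl fun k _ => ?_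
        rw [h1 i (by omega) (τ' k z) (hR i _ z hz), (hg i).2.1 (τ' k) z hz]
  obtain ⟨r, τ, hr, h1⟩ := key N le_rfl
  exact ⟨r, τ, hr, fun i => h1 i i.2⟩

end Pool.Agent.Helper70Rk
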