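import Pool.Agent.Helper70_rk3.Alph
import Pool.Agent.Helper70_rk2.Comb2

/-!
# The two halves of an algebraic external product of generated classes
-/

open CategoryTheory AlgebraicGeometry

universe u v

namespace Pool.Agent.Helper70Rk

set_option linter.unusedSectionVars false
set_option linter.unusedVariables false

open Pool.Agent.H914 Pool.Agent.H914.VarClass Pool.Agent.H914.VarClass.Obj
  Pool.Agent.H914.WeilCohomology Pool.Agent.R908

variable {k : Type u} [Field k] {𝒱 : VarClass k} {ops : CycleOps 𝒱}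
  {W : WeilCohomology.{u, v} ops} {X Y Z Z' : 𝒱.Obj} {ι : Type}

namespace Alph

lemma gsa_pick {A : Alph W ι} {x : W.H Z} (hx : x ∈ A.GSA Z) (φ : W.H Z →ₗ[W.K] W.K)
    (h : φ x ≠ 0) : ∃ y, Hom y ∧ (∃ s, y ∈ A.HSA s Z) ∧ φ y ≠ 0 := by
  by_contra hcon
  push Not at hcon
  apply h
  have h1 : A.GSA Z ≤ LinearMap.ker φ := by
    rw [GSA, Submodule.span_le]
    rintro y ⟨hy, s, hs⟩
    exact hcon y hy ⟨s, hs⟩
  exact h1 hx

/-- An alphabet with its symmetries. -/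
structure Sym (A : Alph W ι) [Fintype ι] [DecidableEq ι] (κ : Equiv.Perm ι)
    (Γ : Set (Equiv.Perm ι)) (Φ : Set ι) (e : ι → ℤ) where
  pair : ∀ l, A.IsPair l (κ l)
  /-- the Galois group -/
  S : Γ → SemiLin W
  gal : ∀ π : Γ, A.IsGal (S π) π.1
  C : Calc2 A.UAl Γ κ Φ e
  odd : ∀ a : ι → ℤ, (∀ π ∈ Γ, ∑ l, a l * e (π l) = 0) →
      ∃ (r : ℕ) (τ : Fin r → Equiv.Perm ι), Odd r ∧ (∀ i, τ i ∈ Γ) ∧
        ∀ l, ∑ i, a (τ i l) = ∑ i, a (τ i (κ l))

namespace Sym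

variable [Fintype ι] [DecidableEq ι] {κ : Equiv.Perm ι} {Γ : Set (Equiv.Perm ι)} {Φ : Set ι}
  {e : ι → ℤ} {A : Alph W ι} (D : A.Sym κ Γ Φ e)

include D in
lemma hsa_alg {x : W.H Z} (hxh : Hom x) {s : Multiset ι} (hx : x ∈ A.HSA s Z)
    (hs : A.UAl s) : x ∈ Alg W Z := by
  have h1 : ∀ (t s : Multiset ι), x ∈ A.HSA (s + (t + t.map κ)) Z → x ∈ A.HSA s Z := by
    intro t
    induction t using Multiset.induction with
    | empty =>
      intro s h
      simpa using h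
    | cons l t ih =>
      intro s h
      apply ih
      apply hsa_cancel (D.pair l) hxh
      have e : s + ((l ::ₘ t) + (l ::ₘ t).map κ) = s + (t + t.map κ) + {l, κ l} := by
        rw [Multiset.map_cons, ← Multiset.singleton_add, ← Multiset.singleton_add (κ l)]
        have : ({l, κ l} : Multiset ι) = {l} + {κ l} := rfl
        rw [this]
        abel
      rwa [e] at h
  rw [← hsa_zero (A := A)]
  apply h1 s 0
  rw [zero_add]
  exact hsa_add_ual hx (D.C.gal D.C.conj hs)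

/-- **The two halves of an algebraic external product of generated classes.** -/
theorem halves {v w : W.H Y} (hv : v ∈ A.GSA Y) (hw : w ∈ A.GSA Y)
    (hinv : ∀ π : Γ, (D.S π).σ Y v = v) (hvh : Hom v) (hwh : Hom w) (hER : ER w v)
    (htr : W.tr Y (w * v) ≠ 0) : v ∈ Alg W Y ∧ w ∈ Alg W Y := by
  obtain ⟨x₁, hx₁, ⟨s, hs⟩, ht₁⟩ := gsa_pick hv ((W.tr Y) ∘ₗ LinearMap.mulLeft W.K w) htr
  obtain ⟨x₂, hx₂, ⟨t, ht⟩, ht₂⟩ := gsa_pick hw ((W.tr Y) ∘ₗ LinearMap.mulRight W.K v) htr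
  have ht₁' : W.tr Y (w * x₁) ≠ 0 := ht₁
  have ht₂' : W.tr Y (x₂ * v) ≠ 0 := ht₂
  have hA : ∀ (Z : 𝒱.Obj) (L : List (W.H Z × ι)), A.IsW Z L s → ER (wv L) v := by
    intro Z L hL
    exact ((hs Z L hL).swap hx₁ hL.hom).comp hL.hom hx₁ hwh hvh hER ht₁'
  have hB : ∀ π ∈ Γ, ∀ (Z : 𝒱.Obj) (L : List (W.H Z × ι)), A.IsW Z L (s.map π) →
      ER (wv L) v := by
    intro π hπ Z L hL
    obtain ⟨L₀, r, h1, h2, h3⟩ := (D.gal ⟨π, hπ⟩).word hL
    exact (hA Z L₀ h1).gal (D.S ⟨π, hπ⟩) h2 one_ne_zero h3 (by rw [hinv, one_smul])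
  have hC : ∀ π ∈ Γ, A.UAl (s.map π + t) := by
    intro π hπ Z L hL
    obtain ⟨L₁, L₂, ε, hε, h1, h2, h3⟩ := hL.split
    have h4 : ER (wv L₁) (wv L₂) :=
      (hB π hπ Z L₁ h1).comp h1.hom hvh hx₂ h2.hom (ht Z L₂ h2) ht₂'
    have h5 := Alg.map (diag Z) h4
    have e1 : diag Z ≫ fst Z Z = 𝟙 Z := Obj.lift_fst _ _
    have e2 : diag Z ≫ snd Z Z = 𝟙 Z := Obj.lift_snd _ _
    rw [ext, map_mul, ← W.map_comp, ← W.map_comp, e1, e2, W.map_id, W.map_id] at h5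
    rw [h3]
    exact Submodule.smul_mem _ _ h5
  have hs' : A.UAl s := D.C.orbit D.odd hC
  have ht' : A.UAl t := by
    refine D.C.orbit D.odd (t := s) fun π hπ => ?_
    have h1 := D.C.gal hπ (hC π.symm (D.C.inv hπ))
    rw [Multiset.map_add, Multiset.map_map, add_comm] at h1
    have e : s.map (π ∘ π.symm) = s := by
      rw [Equiv.self_comp_symm, Multiset.map_id]
    rwa [e] at h1
  have hvA : v ∈ Alg W Y := hER.app hwh hvh (D.hsa_alg hx₁ hs hs') ht₁'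
  refine ⟨hvA, (hER.swap hwh hvh).app hvh hwh (D.hsa_alg hx₂ ht ht') ?_⟩
  obtain ⟨r, hr, e⟩ := comm_of_hom hvh hx₂
  rw [e, map_smul]
  exact smul_ne_zero hr ht₂'

end Sym

end Alph

end Pool.Agent.Helper70Rk
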