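import Pool.Agent.Helper70_rk3.Data
import Pool.Agent.Helper70_rk3.Halves
import Pool.Agent.Helper70_rk3.FamOdd

/-!
# Families of motives of CM type: the cohomology with complex coefficients
-/

open CategoryTheory AlgebraicGeometry TensorProduct

universe u v

namespace Pool.Agent.Helper70Rk

set_option linter.unusedSectionVars false
set_option linter.unusedVariables false

open Pool.Agent.H914 Pool.Agent.H914.VarClass Pool.Agent.H914.VarClass.Obj
  Pool.Agent.H914.WeilCohomology Pool.Agent.Y121.AHS Pool.Agent.R908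

variable {k : Type u} [Field k] {𝒱 : VarClass k} {ops : CycleOps 𝒱}
  {T : HodgeTheory ops} {N : ℕ} {X : Fin N → 𝒱.Obj} {w : Fin N → ℕ}
  {π P : ∀ i, ((X i).prod (X i)).Cycles} {R : Fin N → Finset ℂ} {e : Fin N → ℂ → ℤ}

/-- The letters of all the motives. -/
abbrev Lt (R : Fin N → Finset ℂ) : Type := Σ i, Ix (R i)

section Fam

variable (D : ∀ i, LData T (X i) (π i) (P i) (R i) (e i))

/-- The alphabet. -/
def alph : Alph (VC T) (Lt R) where
  mem l Z := {x | ∃ g : Z ⟶ X l.1, x = (VC T).map g ((D l.1).u l.2)}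
  hom := by
    rintro l Z x ⟨g, rfl⟩
    exact ((D l.1).hom l.2).map g
  map := by
    rintro l Z Z' g x ⟨h, rfl⟩
    exact ⟨g ≫ h, ((VC T).map_comp g h _).symm⟩

/-- The permutation of the letters. -/
def permF (τ : ℂ ≃+* ℂ) : Equiv.Perm (Lt R) :=
  Equiv.sigmaCongrRight fun i => permR (D i).stab τ

lemma permF_mk (τ : ℂ ≃+* ℂ) (i : Fin N) (l : Ix (R i)) :
    permF D τ ⟨i, l⟩ = ⟨i, permR (D i).stab τ l⟩ := rfl

lemma alph_gal (τ : ℂ ≃+* ℂ) : (alph D).IsGal (sC T τ) (permF D τ) := by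
  rintro ⟨i, l⟩ Z x hx
  have hx' : ∃ g : Z ⟶ X i, x = (VC T).map g ((D i).u (permR (D i).stab τ l)) := hx
  obtain ⟨g, rfl⟩ := hx'
  obtain ⟨s, hs, h⟩ := (D i).gal τ l
  refine ⟨(VC T).map g ((D i).u l), ⟨g, rfl⟩, s, hs, ?_⟩
  rw [(sC T τ).map, h, map_smul]

lemma alph_pair (l : Lt R) : (alph D).IsPair l (permF D cc l) := by
  obtain ⟨i, l⟩ := l
  exact ⟨(X i).prod (X i), (VC T).cl _ (P i), (VC T).map (fst (X i) (X i)) ((D i).u l),
    (VC T).map (snd (X i) (X i)) ((D i).u (permR (D i).stab cc l)), (D i).alg, ⟨_, rfl⟩,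
    ⟨_, rfl⟩, (D i).tr l⟩

/-- External products with the pull-backs of a letter. -/
lemma er_pull {A B Z : 𝒱.Obj} {a : (VC T).H A} {b : (VC T).H B} (h : ER a b) (g : Z ⟶ B) :
    ER a ((VC T).map g b) := by
  have h1 := Alg.map (Obj.lift (fst A Z) (snd A Z ≫ g)) h
  rw [ext, map_mul, ← (VC T).map_comp, ← (VC T).map_comp, Obj.lift_fst, Obj.lift_snd,
    (VC T).map_comp _ g] at h1
  exact h1

lemma alph_ual_pair (l : Lt R) : (alph D).UAl {l, permF D cc l} := by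
  obtain ⟨i, l⟩ := l
  intro Z L hL
  have e1 : ({⟨i, l⟩, permF D cc ⟨i, l⟩} : Multiset (Lt R)) =
      {⟨i, l⟩} + {permF D cc ⟨i, l⟩} := rfl
  rw [e1] at hL
  obtain ⟨L₁, L₂, ε, hε, h1, h2, h3⟩ := hL.split
  obtain ⟨x, hx, rfl⟩ := h1.single
  obtain ⟨y, hy, rfl⟩ := h2.single
  have hx' : ∃ g : Z ⟶ X i, x = (VC T).map g ((D i).u l) := hx
  have hy' : ∃ g : Z ⟶ X i, y = (VC T).map g ((D i).u (permR (D i).stab cc l)) := hy
  obtain ⟨g, rfl⟩ := hx'
  obtain ⟨g', rfl⟩ := hy'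
  rw [h3, wv_cons, wv_cons, wv_nil, mul_one, mul_one]
  have h4 := Alg.map (Obj.lift g g') ((D i).er l)
  rw [ext, map_mul, ← (VC T).map_comp, ← (VC T).map_comp, Obj.lift_fst, Obj.lift_snd] at h4
  exact Submodule.smul_mem _ _ h4

/-- There are nonzero words of all types. -/
lemma alph_exists : ∀ ls : List (Lt R), ls ≠ [] → ∃ (Z : 𝒱.Obj) (L : List ((VC T).H Z × Lt R)),
    (alph D).IsW Z L (ls : Multiset (Lt R)) ∧ wv L ≠ 0 ∧
    ∃ p q : ℤ, wv L ∈ tp T Z p q ∧ (ls.map fun l => e l.1 l.2.1).sum = p - q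
  | [], h => absurd rfl h
  | [l], _ => by
    obtain ⟨i, l⟩ := l
    obtain ⟨p, q, h1, h2⟩ := (D i).ty l
    have e1 : wv [((D i).u l, (⟨i, l⟩ : Lt R))] = (D i).u l := by
      rw [wv_cons, wv_nil, mul_one]
    refine ⟨X i, [((D i).u l, ⟨i, l⟩)], ⟨fun b hb => ?_, rfl⟩, ?_, p, q, ?_, ?_⟩
    · rw [List.mem_singleton] at hb
      subst hb
      exact ⟨𝟙 (X i), ((VC T).map_id (X i) _).symm⟩
    · rw [e1]
      exact (D i).ne l
    · rw [e1]
      exact h1
    · rw [List.map_singleton, List.sum_singleton, h2]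
  | l :: l' :: ls, _ => by
    obtain ⟨Z, L, h1, h2, p, q, h3, h4⟩ := alph_exists (l' :: ls) (List.cons_ne_nil _ _)
    obtain ⟨i, l⟩ := l
    obtain ⟨p', q', h5, h6⟩ := (D i).ty l
    have h7 : wv (((VC T).map (fst (X i) Z) ((D i).u l), (⟨i, l⟩ : Lt R)) ::
        pw' (snd (X i) Z) L) = (VC T).map (fst (X i) Z) ((D i).u l) *
          (VC T).map (snd (X i) Z) (wv L) := by
      rw [wv_cons, ← map_wv]
    refine ⟨(X i).prod Z, ((VC T).map (fst (X i) Z) ((D i).u l), ⟨i, l⟩) ::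
      pw' (snd (X i) Z) L, ⟨fun b hb => ?_, ?_⟩, ?_, p' + p, q' + q, ?_, ?_⟩
    · rcases List.mem_cons.1 hb with rfl | hb
      · exact ⟨fst (X i) Z, rfl⟩
      · exact (h1.map (snd (X i) Z)).1 b hb
    · have h8 := (h1.map (snd (X i) Z)).2
      rw [List.map_cons, ← Multiset.cons_coe, h8]
      rfl
    · rw [h7]
      exact ext_ne ((D i).ne l) h2
    · rw [h7]
      exact tp_mul (tp_map _ h5) (tp_map _ h3)
    · rw [List.map_cons, List.sum_cons, h4, h6]
      ring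

/-- The universally algebraic types satisfy the Hodge condition. -/
theorem alph_hodge {s : Multiset (Lt R)} (h : (alph D).UAl s) :
    (s.map fun l => e l.1 l.2.1).sum = 0 := by
  induction s using Quotient.inductionOn with | _ ls =>
  rcases eq_or_ne ls [] with rfl | hls
  · rfl
  obtain ⟨Z, L, h1, h2, p, q, h3, h4⟩ := alph_exists D ls hls
  have h5 := alg_tp (h Z L h1) h2 h3
  have h6 : (ls.map fun l => e l.1 l.2.1).sum = 0 := by
    rw [h4, h5, sub_self]
  exact h6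

end Fam

end Pool.Agent.Helper70Rk
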