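import Pool.Agent.Helper70_rk3.VCFam

/-!
# Families of motives of CM type: the main theorem on the cohomology with complex coefficients
-/

open CategoryTheory AlgebraicGeometry TensorProduct

universe u v

namespace Pool.Agent.Helper70Rk

set_option linter.unusedSectionVars false
set_option linter.unusedVariables false

open Pool.Agent.H914 Pool.Agent.H914.VarClass Pool.Agent.H914.VarClass.Obj
  Pool.Agent.H914.WeilCohomology Pool.Agent.Y121.AHS Pool.Agent.R908

variable {k : Type u} [Field k] {𝒱 : VarClass k} {ops : CycleOps 𝒱}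
  {T : HodgeTheory ops} {N : ℕ} {X : Fin N → 𝒱.Obj} {w : Fin N → ℕ}
  {π P : ∀ i, ((X i).prod (X i)).Cycles} {R : Fin N → Finset ℂ} {e : Fin N → ℂ → ℤ}
  (D : ∀ i, LData T (X i) (π i) (P i) (R i) (e i))

/-- The permutations of the letters given by automorphisms of the field of complex numbers. -/
def GamF : Set (Equiv.Perm (Lt R)) := {σ | ∃ τ : ℂ ≃+* ℂ, σ = permF D τ}

lemma permF_symm (τ : ℂ ≃+* ℂ) : (permF D τ).symm = permF D τ.symm := by
  refine Equiv.ext fun l => ?_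
  rw [Equiv.symm_apply_eq]
  obtain ⟨i, l⟩ := l
  rw [permF_mk, permF_mk]
  have h1 : permR (D i).stab τ (permR (D i).stab τ.symm l) = l :=
    Subtype.ext (τ.apply_symm_apply _)
  rw [h1]

lemma permF_one : permF D (RingEquiv.refl ℂ) = 1 := by
  refine Equiv.ext fun l => ?_
  obtain ⟨i, l⟩ := l
  rfl

lemma permF_cc (l : Lt R) : permF D cc (permF D cc l) = l := by
  obtain ⟨i, l⟩ := l
  rw [permF_mk, permF_mk]
  have h1 : permR (D i).stab cc (permR (D i).stab cc l) = l :=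
    Subtype.ext (Complex.conj_conj l.1)
  rw [h1]

/-- The set of universally algebraic types has the required properties. -/
theorem alph_calc (hreal : ∀ i, ∀ z ∈ R i, starRingEnd ℂ z ≠ z) :
    Calc2 (alph D).UAl (GamF D) (permF D cc) {l : Lt R | 0 < l.2.1.im}
      (fun l => e l.1 l.2.1) where
  zero := Alph.UAl.zero
  add := Alph.UAl.add
  gal := by
    rintro σ s ⟨τ, rfl⟩ hs
    exact hs.gal (alph_gal D τ)
  inv := by
    rintro σ ⟨τ, rfl⟩
    exact ⟨τ.symm, permF_symm D τ⟩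
  one := ⟨RingEquiv.refl ℂ, (permF_one D).symm⟩
  conj := ⟨cc, rfl⟩
  swap := fun l => by
    obtain ⟨i, l⟩ := l
    have h5 : (permR (D i).stab cc l).1 = starRingEnd ℂ l.1 := rfl
    have h6 : l.1.im ≠ 0 := fun h => hreal i l.1 l.2 (Complex.conj_eq_iff_im.2 h)
    change 0 < (permR (D i).stab cc l).1.im ↔ ¬ (0 < l.1.im)
    rw [h5, Complex.conj_im, neg_pos, not_lt]
    exact ⟨fun h => h.le, fun h => lt_of_le_of_ne h h6⟩
  invol := permF_cc D
  pair := alph_ual_pair D
  cancel := fun {l s} h => h.cancel (alph_pair D l)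
  anti := fun l => by
    obtain ⟨i, l⟩ := l
    exact (D i).anti l
  hodge := fun {s} hs => alph_hodge D hs

lemma alph_odd (hodd : OddSymF R e) (a : Lt R → ℤ)
    (ha : ∀ σ ∈ GamF D, ∑ l, a l * e (σ l).1 (σ l).2.1 = 0) :
    ∃ (r : ℕ) (τ : Fin r → Equiv.Perm (Lt R)), Odd r ∧ (∀ j, τ j ∈ GamF D) ∧
        ∀ l, ∑ j, a (τ j l) = ∑ j, a (τ j (permF D cc l)) := by
  classical
  set a' : Fin N → ℂ → ℤ := fun i z => if hz : z ∈ R i then a ⟨i, z, hz⟩ else 0 with ha'
  have h5 : ∀ (i : Fin N) (l : Ix (R i)), a' i l.1 = a ⟨i, l⟩ := by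
    intro i l
    rw [ha']
    beta_reduce
    rw [dif_pos l.2]
  obtain ⟨r, τ, hr, h6⟩ := hodd.2 a' (by
    intro τ
    rw [← ha (permF D τ) ⟨τ, rfl⟩, Fintype.sum_sigma]
    refine Finset.sum_congr rfl fun i _ => ?_
    rw [← Finset.sum_coe_sort]
    exact Finset.sum_congr rfl fun l _ => by rw [h5]; rfl)
  refine ⟨r, fun j => permF D (τ j), hr, fun j => ⟨τ j, rfl⟩, ?_⟩
  rintro ⟨i, l⟩
  have h7 := h6 i l.1 l.2
  have h8 : ∀ j, a' i (τ j l.1) = a (permF D (τ j) ⟨i, l⟩) :=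
    fun j => h5 i (permR (D i).stab (τ j) l)
  have h9 : ∀ j, a' i (τ j (starRingEnd ℂ l.1)) = a (permF D (τ j) (permF D cc ⟨i, l⟩)) :=
    fun j => h5 i (permR (D i).stab (τ j) (permR (D i).stab cc l))
  rw [Finset.sum_congr rfl fun j _ => h8 j, Finset.sum_congr rfl fun j _ => h9 j] at h7
  exact h7

/-- **The main theorem on the cohomology with complex coefficients.** -/
theorem fam_halves (hodd : OddSymF R e) {Y : 𝒱.Obj} {v w : (VC T).H Y}
    (hv : v ∈ (alph D).GSA Y) (hw : w ∈ (alph D).GSA Y)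
    (hinv : ∀ τ : ℂ ≃+* ℂ, (sC T τ).σ Y v = v) (hvh : Hom v) (hwh : Hom w) (hER : ER w v)
    (htr : (VC T).tr Y (w * v) ≠ 0) : v ∈ Alg (VC T) Y ∧ w ∈ Alg (VC T) Y := by
  classical
  have hS : ∀ σ : GamF D, ∃ τ : ℂ ≃+* ℂ, σ.1 = permF D τ := fun σ => σ.2
  choose τ hτ using hS
  let S : (alph D).Sym (permF D cc) (GamF D) {l : Lt R | 0 < l.2.1.im}
      (fun l => e l.1 l.2.1) :=
    { pair := alph_pair D
      S := fun σ => sC T (τ σ)
      gal := fun σ => by
        rw [hτ σ]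
        exact alph_gal D (τ σ)
      C := alph_calc D hodd.1
      odd := alph_odd D hodd }
  exact S.halves hv hw (fun σ => hinv (τ σ)) hvh hwh hER htr

/-- The classes in the realisations of the motives are generated. -/
lemma alph_mot (i : Fin N) {x : (VC T).H (X i)} (hx : opc T (π i) x = x) :
    x ∈ (alph D).GSA (X i) := by
  obtain ⟨c, hc⟩ := (D i).span x hx
  rw [hc]
  refine Submodule.sum_mem _ fun l _ => Submodule.smul_mem _ _ ?_
  refine Alph.GSA.letter ((D i).hom l) (m := ⟨i, permR (D i).stab cc l⟩) ?_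
  intro Z y hy
  have hy' : ∃ g : Z ⟶ X i, y = (VC T).map g ((D i).u (permR (D i).stab cc l)) := hy
  obtain ⟨g, rfl⟩ := hy'
  exact er_pull ((D i).er l) g

end Pool.Agent.Helper70Rk
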